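import Pool.Agent.Results.MP_b7926e_nt.FewExceptionalParameters
import Pool.Agent.R559.NP.Near

/-!
# MP_b7926e_nt: no atypical intersections with torsion cosets for the members of families of subvarieties of tori
at the rational approximations of a real number

We consider all one-parameter families `X_t` of subvarieties of tori over the field `ℚ̄` of algebraic numbers, in all
dimensions, whose tropicalizations at some algebraic parameters are in general position, and their members at the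
rational numbers `t` which approximate a given real number `ξ`. We show that these members have no atypical
intersection with torsion cosets, with finitely many exceptions for every family,

* for the truncations `t = ⌊b ^ k ξ⌋ / b ^ k` of the expansions of `ξ` in all bases `b`, if `ξ` is not in a set of
  Hausdorff dimension zero;
* for all `t` with `|t - ξ| ≤ κ / den(t) ^ 2` (for instance the convergents of the continued fraction of `ξ`), if `ξ`
  is not in a set of Hausdorff dimension at most `1 / 2`;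
* for all `t` with `|t - ξ| ≤ κ / den(t) ^ τ` and `den(t)` in a set `V` of exponent `σ` (it has `O(N ^ (σ + ε))`
  elements below `N`), if `ξ` is not in a set of Hausdorff dimension at most `σ / τ`; and for almost all `ξ` for all
  `τ > σ` at the same time.

The exceptional sets of `ξ` do not depend on the family.
-/

set_option autoImplicit false

open Filter Topology MeasureTheory

namespace Pool.Agent.Results.MP_b7926e_nt.ApproximationsOfReals

open Pool.Agent.Results.MP_b7926e_nt.FewExceptionalParameters (NoAtypical IsUnitOver)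

/-- the field of algebraic numbers -/
abbrev Qbar : Type := AlgebraicClosure ℚ

/-- A one-parameter family of systems of `m` Laurent polynomials in `n` variables with coefficients in `ℚ̄[t]`: the
coefficient of `x ^ β` in the `j`-th polynomial is `F j β`, and `(F j).support` is the finite set of its exponents. -/
abbrev Family (n m : ℕ) : Type := Fin m → ((Fin n → ℤ) →₀ Polynomial Qbar)

variable {n m : ℕ}

/-- The member `X_t` of the family: the points of the torus at which all the Laurent polynomials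
`∑_β F_jβ(t) x^β` vanish; `ι` is the embedding of the algebraic numbers in `ℂ`. -/
def member (ι : Qbar →+* ℂ) (F : Family n m) (t : ℂ) : Set (Fin n → ℂ) :=
  {x | (∀ i, x i ≠ 0) ∧ ∀ j, ∑ β ∈ (F j).support, (F j β).eval₂ ι t * ∏ i, x i ^ β i = 0}

/-- The tropicalization of the family at `t = α`: the points `w` of `ℚ^n` such that for all `j` the minimum of the
numbers `ord_α (F_jβ) + β · w` is attained at two different exponents. -/
def Trop (F : Family n m) (α : Qbar) : Set (Fin n → ℚ) :=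
  {w | ∀ j, ∃ a ∈ (F j).support, ∃ b ∈ (F j).support, a ≠ b ∧
    ((F j a).rootMultiplicity α : ℚ) + ∑ i, (a i : ℚ) * w i =
      ((F j b).rootMultiplicity α : ℚ) + ∑ i, (b i : ℚ) * w i ∧
    ∀ β ∈ (F j).support, ((F j a).rootMultiplicity α : ℚ) + ∑ i, (a i : ℚ) * w i ≤
      ((F j β).rootMultiplicity α : ℚ) + ∑ i, (β i : ℚ) * w i}

/-- General position: none of the polynomials is zero, and there are finitely many algebraic numbers such that no
linear subspace of `ℚ^n` of dimension less than `r` meets the tropicalizations at all of them. -/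
def General (r : ℕ) (F : Family n m) : Prop :=
  (∀ j, F j ≠ 0) ∧ ∃ S : Finset Qbar, ∀ L : Submodule ℚ (Fin n → ℚ), Module.finrank ℚ L < r →
    ∃ α ∈ S, ∀ w ∈ L, w ∉ Trop F α

/-- The exceptional parameters: `X_t` has an atypical intersection, that is an irreducible subset of `X_t ∩ η H` of
dimension larger than `dim H - r`, for an algebraic subgroup `H` of the torus and a point `η` whose coordinates are
units of the integral closure of `ℤ[Γ]` (for instance roots of unity). -/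
def Exceptional (ι : Qbar →+* ℂ) (r : ℕ) (Γ : Finset Qbar) (F : Family n m) : Set ℚ :=
  {t | ¬ NoAtypical r (ι '' (Γ : Set Qbar)) (member ι F ((t : ℚ) : ℂ))}

/-- `V` has `O(N ^ (σ + ε))` elements up to `N`, for all `ε > 0` -/
def ExpCount (V : Set ℕ) (σ : ℝ) : Prop :=
  ∀ ε : ℝ, 0 < ε → ∃ K : ℝ, ∀ N : ℕ, 1 ≤ N → {v | v ∈ V ∧ 1 ≤ v ∧ v ≤ N}.ncard ≤ K * (N : ℝ) ^ (σ + ε)

/-- the rational numbers with denominator in `V` at distance at most `κ / den ^ τ` from `ξ` -/
def Approx (V : Set ℕ) (τ κ ξ : ℝ) : Set ℚ :=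
  {t | t.den ∈ V ∧ |(t : ℝ) - ξ| ≤ κ * (t.den : ℝ) ^ (-τ)}

/-- few exceptional parameters for every denominator -/
theorem few (ι : Qbar →+* ℂ) (r : ℕ) (Γ : Finset Qbar) (F : Family n m) (hF : General r F) :
    ∃ C s : ℕ, ∀ B v : ℕ, 2 ≤ B → v ≤ B → ∀ T : Finset ℚ,
      (∀ t ∈ T, t.den = v ∧ |t.num| ≤ B ∧ t ∈ Exceptional ι r Γ F) →
      (T.card : ℝ) ≤ C * Real.log B ^ s := by
  classical
  obtain ⟨h0, S, hS⟩ := hF
  set α : Fin S.card → Qbar := fun l => (S.equivFin.symm l : Qbar) with hα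
  have key := Pool.Agent.Results.MP_b7926e_nt.FewExceptionalParameters.result (n := n) (m := m)
    (M := S.card) r (fun j => (F j).support)
    (fun j => by
      rw [Finset.nonempty_iff_ne_empty, Ne, Finsupp.support_eq_empty]
      exact h0 j)
    (fun j β => (F j β).map ι)
    (fun j β hβ => by
      rw [Ne, Polynomial.map_eq_zero]
      exact Finsupp.mem_support_iff.1 hβ)
    (fun l => ι (α l))
    (fun l => by
      have : Algebra.IsAlgebraic ℚ (AlgebraicClosure ℚ) := AlgebraicClosure.isAlgebraic ℚ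
      have h1 : IsAlgebraic ℚ (α l) := Algebra.IsAlgebraic.isAlgebraic _
      exact h1.algHom ι.toRatAlgHom)
    (fun L hL => by
      obtain ⟨a, ha, h1⟩ := hS L hL
      refine ⟨S.equivFin ⟨a, ha⟩, fun w hw hmem => h1 w hw fun j => ?_⟩
      obtain ⟨x, hx, y, hy, hxy, h2, h3⟩ := hmem j
      have e : ∀ β, (FewExceptionalParameters.order (fun j β => (F j β).map ι)
          (ι (α (S.equivFin ⟨a, ha⟩))) j β : ℚ) = ((F j β).rootMultiplicity a : ℚ) := by
        intro β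
        rw [FewExceptionalParameters.order]
        rw [← Polynomial.eq_rootMultiplicity_map ι.injective]
        simp [hα]
      simp only [e] at h2 h3
      exact ⟨x, hx, y, hy, hxy, h2, h3⟩)
    (ι '' (Γ : Set Qbar)) (Γ.finite_toSet.image _)
  obtain ⟨C, s, h⟩ := key
  refine ⟨C, s, fun B v hB hv T hT => h B v hB hv T fun t ht => ?_⟩
  obtain ⟨h1, h2, h3⟩ := hT t ht
  refine ⟨h1, h2, fun h4 => h3 ?_⟩
  have e : FewExceptionalParameters.member (fun j => (F j).support) (fun j β => (F j β).map ι)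
      ((t : ℚ) : ℂ) = member ι F ((t : ℚ) : ℂ) := by
    ext x
    simp only [FewExceptionalParameters.member, member, Set.mem_ofPred_eq, Polynomial.eval_map]
  rw [← e]
  exact h4

/-- the height of a rational number -/
noncomputable def ht (t : ℚ) : ℝ := max ((|t.num| : ℤ) : ℝ) (t.den : ℝ)

lemma one_le_ht (t : ℚ) : 1 ≤ ht t :=
  le_max_of_le_right (by exact_mod_cast t.pos)

lemma log_pow_bound (s : ℕ) {δ : ℝ} (hδ : 0 < δ) :
    ∃ K : ℝ, 0 ≤ K ∧ ∀ N : ℕ, 1 ≤ N → Real.log ((max N 2 : ℕ) : ℝ) ^ s ≤ K * (N : ℝ) ^ δ := by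
  set δ' : ℝ := δ / ((s : ℝ) + 1) with hδ'
  have h0 : 0 < δ' := by positivity
  refine ⟨2 ^ δ / δ' ^ s, by positivity, fun N hN => ?_⟩
  set x : ℝ := ((max N 2 : ℕ) : ℝ) with hx
  have hx2 : (2 : ℝ) ≤ x := by
    calc (2 : ℝ) = ((2 : ℕ) : ℝ) := by norm_num
      _ ≤ ((max N 2 : ℕ) : ℝ) := Nat.cast_le.2 (le_max_right N 2)
  have hx0 : 0 < x := by linarith
  have hx1 : 1 ≤ x := by linarith
  have hN1 : (1 : ℝ) ≤ N := by exact_mod_cast hN
  have hxN : x ≤ 2 * N := by
    rw [hx, Nat.cast_max]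
    refine max_le (by linarith) ?_
    push_cast
    linarith
  have h1 : Real.log x ≤ x ^ δ' / δ' := Real.log_le_rpow_div hx0.le h0
  have hl : 0 ≤ Real.log x := Real.log_nonneg hx1
  calc Real.log x ^ s ≤ (x ^ δ' / δ') ^ s := pow_le_pow_left₀ hl h1 s
    _ = (x ^ δ') ^ s / δ' ^ s := div_pow _ _ _
    _ = x ^ (δ' * s) / δ' ^ s := by rw [← Real.rpow_natCast (x ^ δ') s, ← Real.rpow_mul hx0.le]
    _ ≤ x ^ δ / δ' ^ s := by
        have h2 : δ' * s ≤ δ := by
          rw [hδ', div_mul_eq_mul_div, div_le_iff₀ (by positivity)]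
          nlinarith
        gcongr
    _ ≤ (2 * N) ^ δ / δ' ^ s := by gcongr
    _ = 2 ^ δ / δ' ^ s * (N : ℝ) ^ δ := by
        rw [Real.mul_rpow (by norm_num) (by positivity)]
        ring

lemma finite_ht (N : ℕ) : {t : ℚ | |t.num| ≤ N ∧ t.den ≤ N}.Finite := by
  refine (((Finset.Icc (-(N : ℤ)) N ×ˢ Finset.range (N + 1)).image
    (fun p : ℤ × ℕ => (p.1 : ℚ) / (p.2 : ℚ))).finite_toSet).subset ?_
  rintro t ⟨h1, h2⟩
  rw [Finset.mem_coe, Finset.mem_image]
  refine ⟨(t.num, t.den), ?_, Rat.num_div_den t⟩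
  rw [Finset.mem_product, Finset.mem_Icc, Finset.mem_range]
  exact ⟨abs_le.1 h1, by simp only; omega⟩

open Classical in
theorem count (C s : ℕ) {P : Set ℚ} {V : Set ℕ} {σ : ℝ} (hV : ExpCount V σ)
    (h : ∀ B v : ℕ, 2 ≤ B → v ≤ B → ∀ T : Finset ℚ,
      (∀ t ∈ T, t.den = v ∧ |t.num| ≤ B ∧ t ∈ P) → (T.card : ℝ) ≤ C * Real.log B ^ s)
    (hσ : 0 ≤ σ) (ε : ℝ) (hε : 0 < ε) :
    ∃ K : ℝ, ∀ B : ℝ, 1 ≤ B → {t | (t.den ∈ V ∧ t ∈ P) ∧ ht t ≤ B}.Finite ∧
      (({t | (t.den ∈ V ∧ t ∈ P) ∧ ht t ≤ B}.ncard : ℕ) : ℝ) ≤ K * B ^ (σ + ε) := by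
  obtain ⟨K₁, hK₁⟩ := hV (ε / 2) (by positivity)
  obtain ⟨K₂, hK₂0, hK₂⟩ := log_pow_bound s (δ := ε / 2) (by positivity)
  refine ⟨|K₁| * (C * K₂), fun B hB => ?_⟩
  have hN1 : 1 ≤ ⌊B⌋₊ := Nat.le_floor (by exact_mod_cast hB)
  set N : ℕ := ⌊B⌋₊ with hN
  have hNB : (N : ℝ) ≤ B := Nat.floor_le (by linarith)
  have hN0 : (0 : ℝ) < N := by exact_mod_cast hN1
  set S : Set ℚ := {t | (t.den ∈ V ∧ t ∈ P) ∧ ht t ≤ B} with hS
  have hht : ∀ t ∈ S, |t.num| ≤ N ∧ t.den ≤ N := by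
    rintro t ⟨-, h1⟩
    have h2 : ((|t.num| : ℤ) : ℝ) ≤ B := (le_max_left _ _).trans h1
    have h3 : (t.den : ℝ) ≤ B := (le_max_right _ _).trans h1
    refine ⟨?_, Nat.le_floor h3⟩
    have h4 : t.num.natAbs ≤ N := Nat.le_floor (by rwa [Nat.cast_natAbs])
    rw [Int.abs_eq_natAbs]
    exact_mod_cast h4
  have hfin : S.Finite := (finite_ht N).subset hht
  refine ⟨hfin, ?_⟩
  have hDfin : {v | v ∈ V ∧ 1 ≤ v ∧ v ≤ N}.Finite :=
    (Set.finite_Icc 1 N).subset fun v hv => ⟨hv.2.1, hv.2.2⟩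
  have hmaps : ∀ t ∈ hfin.toFinset, t.den ∈ hDfin.toFinset := by
    intro t ht'
    rw [Set.Finite.mem_toFinset] at ht' ⊢
    exact ⟨ht'.1.1, t.pos, (hht t ht').2⟩
  set M : ℕ := max N 2 with hM
  have hfib : ∀ v ∈ hDfin.toFinset,
      ((hfin.toFinset.filter (fun t => t.den = v)).card : ℝ) ≤ C * Real.log M ^ s := by
    intro v hv
    rw [Set.Finite.mem_toFinset] at hv
    refine h M v (le_max_right _ _) (hv.2.2.trans (le_max_left _ _)) _ fun t ht' => ?_
    rw [Finset.mem_filter, Set.Finite.mem_toFinset] at ht'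
    refine ⟨ht'.2, (hht t ht'.1).1.trans ?_, ht'.1.1.2⟩
    exact_mod_cast le_max_left N 2
  have hcard : ((S.ncard : ℕ) : ℝ) ≤ (hDfin.toFinset.card : ℝ) * (C * Real.log M ^ s) := by
    rw [Set.ncard_eq_toFinset_card _ hfin, Finset.card_eq_sum_card_fiberwise hmaps]
    push_cast
    calc ∑ v ∈ hDfin.toFinset, ((hfin.toFinset.filter (fun t => t.den = v)).card : ℝ)
        ≤ ∑ _v ∈ hDfin.toFinset, (C * Real.log M ^ s) := Finset.sum_le_sum hfib
      _ = _ := by rw [Finset.sum_const, nsmul_eq_mul]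
  have hD : (hDfin.toFinset.card : ℝ) ≤ |K₁| * (N : ℝ) ^ (σ + ε / 2) := by
    rw [← Set.ncard_eq_toFinset_card _ hDfin]
    refine (hK₁ N hN1).trans ?_
    gcongr
    exact le_abs_self _
  have hL := hK₂ N hN1
  calc ((S.ncard : ℕ) : ℝ) ≤ (hDfin.toFinset.card : ℝ) * (C * Real.log M ^ s) := hcard
    _ ≤ (|K₁| * (N : ℝ) ^ (σ + ε / 2)) * (C * (K₂ * (N : ℝ) ^ (ε / 2))) := by
        have h5 : 0 ≤ Real.log (M : ℝ) := by
          refine Real.log_nonneg ?_
          have : 2 ≤ M := le_max_right _ _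
          exact_mod_cast (by omega : 1 ≤ M)
        gcongr
    _ = |K₁| * (C * K₂) * (N : ℝ) ^ (σ + ε) := by
        rw [show σ + ε = (σ + ε / 2) + ε / 2 by ring, Real.rpow_add hN0 (σ + ε / 2) (ε / 2)]
        ring
    _ ≤ |K₁| * (C * K₂) * B ^ (σ + ε) := by
        gcongr

/-- the codes of the families -/
abbrev Code : Type := Σ n : ℕ, Σ m : ℕ, ℕ × Finset Qbar × Family n m

lemma countable_code : Countable Code := by
  have h1 : Countable Qbar := by
    have : Algebra.IsAlgebraic ℚ (AlgebraicClosure ℚ) := AlgebraicClosure.isAlgebraic ℚ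
    have h := Algebra.IsAlgebraic.cardinalMk_le_max ℚ (AlgebraicClosure ℚ)
    rw [Cardinal.mk_eq_aleph0 ℚ, max_self] at h
    exact Cardinal.mk_le_aleph0_iff.1 h
  have h2 : Countable (Polynomial Qbar) := by
    have : Function.Injective (fun p : Polynomial Qbar => p.toFinsupp.coeff) := by
      intro p q h
      ext i
      have := DFunLike.congr_fun h i
      exact this
    exact this.countable
  infer_instance

/-- a set which works for all families -/
theorem dim_all (ι : Qbar →+* ℂ) (V : Set ℕ) (σ τ : ℝ) (hσ : 0 ≤ σ) (hτ : 0 < τ) (hV : ExpCount V σ) :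
    ∃ E : Set ℝ, dimH E ≤ ENNReal.ofReal (σ / τ) ∧ ∀ ξ : ℝ, ξ ∉ E →
      ∀ (n m r : ℕ) (Γ : Finset Qbar) (F : Family n m), General r F → ∀ κ : ℝ,
        (Approx V τ κ ξ ∩ Exceptional ι r Γ F).Finite := by
  classical
  have h : ∀ c : Code, ∃ E : Set ℝ, dimH E ≤ ENNReal.ofReal (σ / τ) ∧ ∀ ξ : ℝ, ξ ∉ E →
      General c.2.2.1 c.2.2.2.2 → ∀ κ : ℝ,
        (Approx V τ κ ξ ∩ Exceptional ι c.2.2.1 c.2.2.2.1 c.2.2.2.2).Finite := by
    rintro ⟨n, m, r, Γ, F⟩
    by_cases hF : General r F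
    · obtain ⟨C, s, hfew⟩ := few ι r Γ F hF
      obtain ⟨E, h1, h2⟩ := Pool.Agent.R559.NP.near_dim (T := ℚ) (X := ℝ) (H := ht) one_le_ht
        (Bad := fun t => t.den ∈ V ∧ t ∈ Exceptional ι r Γ F) hσ hτ
        (fun ε hε => count C s hV hfew hσ ε hε) (fun t => (t : ℝ))
      refine ⟨E, h1, fun ξ hξ _ κ => ?_⟩
      have h3 := h2 ξ hξ (|κ| * (|ξ| + |κ| + 1) ^ τ)
      refine h3.subset ?_
      rintro t ⟨⟨h4, h5⟩, h6⟩
      refine ⟨?_, h4, h6⟩
      have hd1 : (1 : ℝ) ≤ t.den := by exact_mod_cast t.pos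
      have hd0 : (0 : ℝ) < t.den := by linarith
      have hdτ : (t.den : ℝ) ^ (-τ) ≤ 1 := Real.rpow_le_one_of_one_le_of_nonpos hd1 (by linarith)
      have hdτ0 : 0 ≤ (t.den : ℝ) ^ (-τ) := by positivity
      have h7 : |(t : ℝ) - ξ| ≤ |κ| * (t.den : ℝ) ^ (-τ) :=
        h5.trans (mul_le_mul_of_nonneg_right (le_abs_self κ) hdτ0)
      have h8 : |(t : ℝ)| ≤ |ξ| + |κ| := by
        have e1 : |(t : ℝ)| ≤ |(t : ℝ) - ξ| + |ξ| := by
          calc |(t : ℝ)| = |((t : ℝ) - ξ) + ξ| := by ring_nf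
            _ ≤ _ := abs_add_le _ _
        have e2 : |κ| * (t.den : ℝ) ^ (-τ) ≤ |κ| := by
          have := mul_le_mul_of_nonneg_left hdτ (abs_nonneg κ)
          linarith
        linarith
      have h9 : ht t ≤ (|ξ| + |κ| + 1) * t.den := by
        refine max_le ?_ ?_
        · have e1 : ((|t.num| : ℤ) : ℝ) = |(t : ℝ)| * t.den := by
            have e2 : (t : ℝ) = (t.num : ℝ) / (t.den : ℝ) := Rat.cast_def t
            rw [e2, abs_div, abs_of_pos hd0, div_mul_cancel₀ _ hd0.ne']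
            push_cast
            rfl
          rw [e1]
          gcongr
          linarith
        · have : 0 ≤ |ξ| + |κ| := by positivity
          nlinarith
      have hht0 : 0 < ht t := lt_of_lt_of_le one_pos (one_le_ht t)
      have hK : 0 < |ξ| + |κ| + 1 := by positivity
      have h10 : (t.den : ℝ) ^ (-τ) ≤ (|ξ| + |κ| + 1) ^ τ * ht t ^ (-τ) := by
        have e1 : ((|ξ| + |κ| + 1) * t.den) ^ (-τ) ≤ ht t ^ (-τ) :=
          Real.rpow_le_rpow_of_nonpos hht0 h9 (by linarith)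
        rw [Real.mul_rpow hK.le hd0.le] at e1
        calc (t.den : ℝ) ^ (-τ)
            = (|ξ| + |κ| + 1) ^ τ * ((|ξ| + |κ| + 1) ^ (-τ) * (t.den : ℝ) ^ (-τ)) := by
              rw [← mul_assoc, ← Real.rpow_add hK, add_neg_cancel, Real.rpow_zero, one_mul]
          _ ≤ _ := by gcongr
      rw [Real.dist_eq]
      calc |(t : ℝ) - ξ| ≤ |κ| * (t.den : ℝ) ^ (-τ) := h7
        _ ≤ |κ| * ((|ξ| + |κ| + 1) ^ τ * ht t ^ (-τ)) := by gcongr
        _ = _ := by ring
    · exact ⟨∅, by simp, fun ξ _ h => absurd h hF⟩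
  choose E hE1 hE2 using h
  have : Countable Code := countable_code
  refine ⟨⋃ c, E c, ?_, fun ξ hξ n m r Γ F hF κ => ?_⟩
  · rw [dimH_iUnion]
    exact iSup_le hE1
  · rw [Set.mem_iUnion] at hξ
    push Not at hξ
    exact hE2 ⟨n, m, r, Γ, F⟩ ξ (hξ _) hF κ

lemma expCount_univ : ExpCount Set.univ 1 := by
  intro ε hε
  refine ⟨1, fun N hN => ?_⟩
  have h1 : {v : ℕ | v ∈ (Set.univ : Set ℕ) ∧ 1 ≤ v ∧ v ≤ N} = ↑(Finset.Icc 1 N) := by
    ext v
    simp
  rw [h1, Set.ncard_coe_finset, Nat.card_Icc, Nat.add_sub_cancel, one_mul]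
  have hN1 : (1 : ℝ) ≤ N := by exact_mod_cast hN
  calc (N : ℝ) = (N : ℝ) ^ (1 : ℝ) := (Real.rpow_one _).symm
    _ ≤ _ := Real.rpow_le_rpow_of_exponent_le hN1 (by linarith)

lemma dvd_pow_log {b v k L : ℕ} (hb : b ≠ 0) (hv : v ∣ b ^ k) (hv0 : v ≠ 0) (hL : v < 2 ^ L) : v ∣ b ^ L := by
  rw [← Nat.factorization_le_iff_dvd hv0 (pow_ne_zero _ hb)]
  intro p
  rw [Nat.factorization_pow, Finsupp.smul_apply, smul_eq_mul]
  by_cases hp : v.factorization p = 0
  · omega
  · have hpp : p.Prime := by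
      by_contra hcon
      exact hp (Nat.factorization_eq_zero_of_not_prime _ hcon)
    have hpv : p ∣ v := Nat.dvd_of_factorization_pos hp
    have hpb : p ∣ b := hpp.dvd_of_dvd_pow (hpv.trans hv)
    have h1 : 1 ≤ b.factorization p := hpp.factorization_pos_of_dvd hb hpb
    have h2 : p ^ v.factorization p ≤ v := Nat.ordProj_le p hv0
    have h3 : v.factorization p < L := by
      by_contra hcon
      have h4 : 2 ^ L ≤ p ^ v.factorization p :=
        (Nat.pow_le_pow_left hpp.two_le L).trans (Nat.pow_le_pow_right hpp.pos (by omega))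
      omega
    nlinarith

lemma card_divisors_pow {b : ℕ} (hb : b ≠ 0) (L : ℕ) :
    (b ^ L).divisors.card ≤ (L + 1) ^ b.primeFactors.card * b.divisors.card := by
  rcases Nat.eq_zero_or_pos L with h | h
  · subst h
    have h1 : 1 ≤ b.divisors.card := Finset.card_pos.2 ⟨1, Nat.one_mem_divisors.2 hb⟩
    simpa using h1
  · rw [Nat.card_divisors (pow_ne_zero _ hb), Nat.card_divisors hb, Nat.primeFactors_pow b h.ne',
      ← Finset.prod_const, ← Finset.prod_mul_distrib]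
    refine Finset.prod_le_prod' fun p _ => ?_
    rw [Nat.factorization_pow, Finsupp.smul_apply, smul_eq_mul]
    nlinarith

lemma expCount_base {b : ℕ} (hb : 2 ≤ b) : ExpCount {v | ∃ k : ℕ, v ∣ b ^ k} 0 := by
  intro ε hε
  obtain ⟨K, hK0, hK⟩ := log_pow_bound b.primeFactors.card hε
  refine ⟨5 ^ b.primeFactors.card * K * b.divisors.card, fun N hN => ?_⟩
  have hb0 : b ≠ 0 := by omega
  set L : ℕ := Nat.log 2 N + 1 with hL
  have hN2 : N < 2 ^ L := Nat.lt_pow_succ_log_self one_lt_two N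
  have hsub : {v : ℕ | v ∈ {v | ∃ k : ℕ, v ∣ b ^ k} ∧ 1 ≤ v ∧ v ≤ N} ⊆ ↑((b ^ L).divisors) := by
    rintro v ⟨⟨k, hk⟩, h1, h2⟩
    rw [Finset.mem_coe, Nat.mem_divisors]
    exact ⟨dvd_pow_log hb0 hk (by omega) (lt_of_le_of_lt h2 hN2), pow_ne_zero _ hb0⟩
  have h1 : {v : ℕ | v ∈ {v | ∃ k : ℕ, v ∣ b ^ k} ∧ 1 ≤ v ∧ v ≤ N}.ncard ≤ (b ^ L).divisors.card := by
    rw [← Set.ncard_coe_finset]
    exact Set.ncard_le_ncard hsub (Finset.finite_toSet _)
  have h2 := h1.trans (card_divisors_pow hb0 L)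
  set M : ℕ := max N 2 with hM
  have hM2 : (2 : ℝ) ≤ M := by exact_mod_cast le_max_right N 2
  have hlogM : Real.log 2 ≤ Real.log M := Real.log_le_log (by norm_num) hM2
  have hlog2 : (0.69 : ℝ) < Real.log 2 := by
    have := Real.log_two_gt_d9
    linarith
  have h3 : ((L : ℝ) + 1) ≤ 5 * Real.log M := by
    have e1 : (Nat.log 2 N : ℝ) * Real.log 2 ≤ Real.log M := by
      have e2 : ((2 ^ Nat.log 2 N : ℕ) : ℝ) ≤ M := by
        have e3 : 2 ^ Nat.log 2 N ≤ N := Nat.pow_log_le_self 2 (by omega)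
        exact_mod_cast e3.trans (le_max_left N 2)
      have e4 := Real.log_le_log (by positivity) e2
      push_cast at e4
      rwa [Real.log_pow] at e4
    rw [hL]
    push_cast
    have e5 : (0 : ℝ) ≤ (Nat.log 2 N : ℝ) := Nat.cast_nonneg _
    nlinarith
  have h4 := hK N hN
  calc (({v : ℕ | v ∈ {v | ∃ k : ℕ, v ∣ b ^ k} ∧ 1 ≤ v ∧ v ≤ N}.ncard : ℕ) : ℝ)
      ≤ (((L + 1) ^ b.primeFactors.card * b.divisors.card : ℕ) : ℝ) := by exact_mod_cast h2
    _ = ((L : ℝ) + 1) ^ b.primeFactors.card * b.divisors.card := by push_cast; ring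
    _ ≤ (5 * Real.log M) ^ b.primeFactors.card * b.divisors.card := by gcongr
    _ = 5 ^ b.primeFactors.card * Real.log M ^ b.primeFactors.card * b.divisors.card := by
        rw [mul_pow]
    _ ≤ 5 ^ b.primeFactors.card * (K * (N : ℝ) ^ ε) * b.divisors.card := by gcongr
    _ = 5 ^ b.primeFactors.card * K * b.divisors.card * (N : ℝ) ^ (0 + ε) := by
        rw [zero_add]
        ring

/-- the truncations of the expansion in the base `b` -/
lemma trunc {b : ℕ} (hb : 2 ≤ b) (ξ : ℝ) (k : ℕ) :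
    ((((⌊(b : ℝ) ^ k * ξ⌋ : ℤ) : ℚ) / (b : ℚ) ^ k : ℚ)).den ∣ b ^ k ∧
      |((((⌊(b : ℝ) ^ k * ξ⌋ : ℤ) : ℚ) / (b : ℚ) ^ k : ℚ) : ℝ) - ξ| ≤ ((b : ℝ) ^ k)⁻¹ := by
  have hb0 : (0 : ℝ) < b := by exact_mod_cast (by omega : 0 < b)
  have hbk : (0 : ℝ) < (b : ℝ) ^ k := by positivity
  constructor
  · have h1 := Rat.den_dvd ⌊(b : ℝ) ^ k * ξ⌋ ((b ^ k : ℕ) : ℤ)
    rw [Rat.divInt_eq_div] at h1
    push_cast at h1
    exact_mod_cast h1
  · push_cast
    have h1 := Int.floor_le ((b : ℝ) ^ k * ξ)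
    have h2 := Int.lt_floor_add_one ((b : ℝ) ^ k * ξ)
    rw [show ((⌊(b : ℝ) ^ k * ξ⌋ : ℤ) : ℝ) / (b : ℝ) ^ k - ξ =
      (((⌊(b : ℝ) ^ k * ξ⌋ : ℤ) : ℝ) - (b : ℝ) ^ k * ξ) / (b : ℝ) ^ k by field_simp]
    rw [abs_div, abs_of_pos hbk, div_le_iff₀ hbk, inv_mul_cancel₀ hbk.ne', abs_le]
    constructor <;> linarith

/-- **Theorem.** Let `ι` be an embedding of the algebraic numbers in `ℂ`.

1. There is a set `E` of real numbers of Hausdorff dimension `0` such that for every real `ξ ∉ E`, for every family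
   `F` in general position (in all dimensions `n`, with all numbers `m` of equations and all `r`), for every finite
   set `Γ` of algebraic numbers and for every base `b ≥ 2`, the members `X_t` of the family at all but finitely many
   of the truncations `t = ⌊b ^ k ξ⌋ / b ^ k`, `k = 0, 1, 2, …`, have no atypical intersection.
2. There is a set `E` of Hausdorff dimension at most `1 / 2` such that for every real `ξ ∉ E`, for every family in
   general position, every `Γ` and every `κ`, the member `X_t` has no atypical intersection for all but finitely many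
   rational numbers `t` with `|t - ξ| ≤ κ / den(t) ^ 2`.
3. Let `V` be a set of positive integers with `O(N ^ (σ + ε))` elements up to `N`, and `τ > 0`. There is a set `E` of
   Hausdorff dimension at most `σ / τ` such that for every real `ξ ∉ E`, for every family in general position, every
   `Γ` and every `κ`, the member `X_t` has no atypical intersection for all but finitely many rational numbers `t`
   with denominator in `V` and `|t - ξ| ≤ κ / den(t) ^ τ`.
4. For almost all real `ξ` this holds for all `τ > σ` at the same time. -/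
theorem result (ι : Qbar →+* ℂ) :
    (∃ E : Set ℝ, dimH E = 0 ∧ ∀ ξ : ℝ, ξ ∉ E →
      ∀ (n m r : ℕ) (Γ : Finset Qbar) (F : Family n m), General r F → ∀ b : ℕ, 2 ≤ b →
        ∃ k₀ : ℕ, ∀ k : ℕ, k₀ ≤ k → NoAtypical r (ι '' (Γ : Set Qbar))
          (member ι F (((((⌊(b : ℝ) ^ k * ξ⌋ : ℤ) : ℚ) / (b : ℚ) ^ k : ℚ)) : ℂ))) ∧
    (∃ E : Set ℝ, dimH E ≤ ENNReal.ofReal (1 / 2) ∧ ∀ ξ : ℝ, ξ ∉ E →
      ∀ (n m r : ℕ) (Γ : Finset Qbar) (F : Family n m), General r F → ∀ κ : ℝ,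
        {t : ℚ | |(t : ℝ) - ξ| ≤ κ / (t.den : ℝ) ^ 2 ∧
          ¬ NoAtypical r (ι '' (Γ : Set Qbar)) (member ι F ((t : ℚ) : ℂ))}.Finite) ∧
    (∀ (V : Set ℕ) (σ τ : ℝ), 0 ≤ σ → 0 < τ → ExpCount V σ →
      ∃ E : Set ℝ, dimH E ≤ ENNReal.ofReal (σ / τ) ∧ ∀ ξ : ℝ, ξ ∉ E →
        ∀ (n m r : ℕ) (Γ : Finset Qbar) (F : Family n m), General r F → ∀ κ : ℝ,
          {t ∈ Approx V τ κ ξ |
            ¬ NoAtypical r (ι '' (Γ : Set Qbar)) (member ι F ((t : ℚ) : ℂ))}.Finite) ∧
    (∀ (V : Set ℕ) (σ : ℝ), 0 ≤ σ → ExpCount V σ → ∀ᵐ ξ : ℝ, ∀ τ : ℝ, σ < τ →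
      ∀ (n m r : ℕ) (Γ : Finset Qbar) (F : Family n m), General r F → ∀ κ : ℝ,
        {t ∈ Approx V τ κ ξ |
          ¬ NoAtypical r (ι '' (Γ : Set Qbar)) (member ι F ((t : ℚ) : ℂ))}.Finite) := by
  refine ⟨?_, ?_, ?_, ?_⟩
  · have h : ∀ b : ℕ, ∃ E : Set ℝ, dimH E = 0 ∧ ∀ ξ : ℝ, ξ ∉ E → 2 ≤ b →
        ∀ (n m r : ℕ) (Γ : Finset Qbar) (F : Family n m), General r F → ∀ κ : ℝ,
          (Approx {v | ∃ k : ℕ, v ∣ b ^ k} 1 κ ξ ∩ Exceptional ι r Γ F).Finite := by
      intro b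
      by_cases hb : 2 ≤ b
      · obtain ⟨E, h1, h2⟩ := dim_all ι {v | ∃ k : ℕ, v ∣ b ^ k} 0 1 le_rfl one_pos (expCount_base hb)
        refine ⟨E, ?_, fun ξ hξ _ => h2 ξ hξ⟩
        rw [zero_div, ENNReal.ofReal_zero] at h1
        exact nonpos_iff_eq_zero.1 h1
      · exact ⟨∅, by simp, fun ξ _ h => absurd h hb⟩
    choose E hE1 hE2 using h
    refine ⟨(⋃ b, E b) ∪ Set.range ((↑) : ℚ → ℝ), ?_, fun ξ hξ n m r Γ F hF b hb => ?_⟩
    · rw [dimH_union, dimH_iUnion, (Set.countable_range _).dimH_zero]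
      simp [hE1]
    · rw [Set.mem_union, not_or, Set.mem_iUnion] at hξ
      push Not at hξ
      have hfin := hE2 b ξ (hξ.1 b) hb n m r Γ F hF 1
      set S := hfin.toFinset with hS
      have hb0 : (0 : ℝ) < b := by exact_mod_cast (by omega : 0 < b)
      have hb1 : (1 : ℝ) < b := by exact_mod_cast (by omega : 1 < b)
      have hlim : Tendsto (fun k : ℕ => ((b : ℝ) ^ k)⁻¹) atTop (𝓝 0) :=
        (tendsto_pow_atTop_atTop_of_one_lt hb1).inv_tendsto_atTop
      have hk : ∀ t : ℚ, ∃ k₀ : ℕ, ∀ k : ℕ, k₀ ≤ k → ((b : ℝ) ^ k)⁻¹ < |(t : ℝ) - ξ| := by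
        intro t
        have h0 : 0 < |(t : ℝ) - ξ| := by
          rw [abs_pos, sub_ne_zero]
          intro h
          exact hξ.2 ⟨t, h⟩
        exact eventually_atTop.1 (hlim.eventually (gt_mem_nhds h0))
      choose k₀ hk₀ using hk
      refine ⟨S.sup k₀, fun k hk => ?_⟩
      by_contra hcon
      obtain ⟨h1, h2⟩ := trunc hb ξ k
      set t : ℚ := (((⌊(b : ℝ) ^ k * ξ⌋ : ℤ) : ℚ) / (b : ℚ) ^ k : ℚ) with ht
      have hdle : (t.den : ℝ) ≤ (b : ℝ) ^ k := by
        have : t.den ≤ b ^ k := Nat.le_of_dvd (by positivity) h1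
        exact_mod_cast this
      have hd0 : (0 : ℝ) < t.den := by exact_mod_cast t.pos
      have hmem : t ∈ S := by
        rw [hS, Set.Finite.mem_toFinset]
        refine ⟨⟨⟨k, h1⟩, ?_⟩, hcon⟩
        rw [one_mul, Real.rpow_neg_one]
        exact h2.trans (inv_anti₀ hd0 hdle)
      have h3 := hk₀ t k ((Finset.le_sup hmem).trans hk)
      linarith
  · obtain ⟨E, h1, h2⟩ := dim_all ι Set.univ 1 2 zero_le_one two_pos expCount_univ
    refine ⟨E, h1, fun ξ hξ n m r Γ F hF κ => (h2 ξ hξ n m r Γ F hF κ).subset ?_⟩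
    rintro t ⟨h3, h4⟩
    refine ⟨⟨Set.mem_univ _, ?_⟩, h4⟩
    have e : (t.den : ℝ) ^ (-(2 : ℝ)) = ((t.den : ℝ) ^ 2)⁻¹ := by
      rw [Real.rpow_neg (Nat.cast_nonneg _)]
      norm_num
    rw [e, ← div_eq_mul_inv]
    exact h3
  · intro V σ τ hσ hτ hV
    obtain ⟨E, h1, h2⟩ := dim_all ι V σ τ hσ hτ hV
    exact ⟨E, h1, fun ξ hξ n m r Γ F hF κ => h2 ξ hξ n m r Γ F hF κ⟩
  · intro V σ hσ hV
    have h : ∀ j : ℕ, ∀ᵐ ξ : ℝ, ∀ (n m r : ℕ) (Γ : Finset Qbar) (F : Family n m), General r F →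
        ∀ κ : ℝ, (Approx V (σ + 1 / ((j : ℝ) + 1)) κ ξ ∩ Exceptional ι r Γ F).Finite := by
      intro j
      have hj : 0 < 1 / ((j : ℝ) + 1) := by positivity
      obtain ⟨E, h1, h2⟩ := dim_all ι V σ (σ + 1 / ((j : ℝ) + 1)) hσ (by positivity) hV
      have h3 : volume E = 0 := by
        refine measure_zero_of_dimH_lt (d := 1) ?_ ?_
        · rw [NNReal.coe_one, hausdorffMeasure_real]
        · refine lt_of_le_of_lt h1 ?_
          rw [ENNReal.coe_one, ← ENNReal.ofReal_one]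
          rw [ENNReal.ofReal_lt_ofReal_iff one_pos, div_lt_one (by positivity)]
          linarith
      have h4 : ∀ᵐ ξ : ℝ, ξ ∉ E := by
        rw [ae_iff]
        simpa using h3
      filter_upwards [h4] with ξ hξ
      exact h2 ξ hξ
    filter_upwards [ae_all_iff.2 h] with ξ hξ τ hτ n m r Γ F hF κ
    obtain ⟨j, hj⟩ := exists_nat_one_div_lt (sub_pos.2 hτ)
    refine (hξ j n m r Γ F hF |κ|).subset ?_
    rintro t ⟨⟨h1, h2⟩, h3⟩
    refine ⟨⟨h1, h2.trans ?_⟩, h3⟩
    have hd1 : (1 : ℝ) ≤ t.den := by exact_mod_cast t.pos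
    calc κ * (t.den : ℝ) ^ (-τ) ≤ |κ| * (t.den : ℝ) ^ (-τ) :=
          mul_le_mul_of_nonneg_right (le_abs_self κ) (by positivity)
      _ ≤ |κ| * (t.den : ℝ) ^ (-(σ + 1 / ((j : ℝ) + 1))) := by
          refine mul_le_mul_of_nonneg_left ?_ (abs_nonneg κ)
          exact Real.rpow_le_rpow_of_exponent_le hd1 (by linarith)

end Pool.Agent.Results.MP_b7926e_nt.ApproximationsOfReals
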