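import Pool.Agent.T6.H15.HY.Final

/-!
# Zilber's conjecture and the powers of one hyperplane

`Zilber n` is Zilber's conjecture for the irreducible closed subvarieties of `(ℂ^×)^n`; the assertion
`∀ n, Zilber n` is literally the frozen statement `S18257` (`Pool/Agent/T6/H15/ZP/Check.lean`).

Let `m ≥ 2` and let `a_1, …, a_m` be arbitrary nonzero complex numbers. `hyper a (Fin K)` is the `K`-th
power of the hyperplane `H : a_1 x_1 + ⋯ + a_m x_m = 1` of `(ℂ^×)^m`, a subvariety of `(ℂ^×)^(K m)`.
`FinMax V` means: `V` has only finitely many maximal atypical subvarieties.

**Theorem.** The following assertions are equivalent.

(1) Zilber's conjecture for all subvarieties of `(ℂ^×)^n`, for all `n`.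

(2) For all `K` the variety `H^K` has only finitely many maximal atypical subvarieties.

(3) For infinitely many `K` the variety `H^K` has only finitely many maximal atypical subvarieties.

(4) For every `ε > 0` there are infinitely many `K` such that the points of `H^K` which satisfy at least
`(m - 1 + ε) K` independent multiplicative relations up to roots of unity (so the `K m` coordinates
generate a group of rank at most `(1 - ε) K`) are contained in finitely many atypical subvarieties of `H^K`
(`PtCov`).

So Zilber's conjecture for all subvarieties of all tori is equivalent to Zilber's conjecture for the powers
of one arbitrary hyperplane, for example of the line `x + y = 1`, and to an approximate assertion on the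
points of these powers.

The proof of (4) ⇒ (1). If the conjecture is false there is a subvariety `{g} × V'` of
`(ℂ^×)^e × (ℂ^×)^h` whose atypical points are dense, where `g` has no relations and no character is
constant on `V'`. Let `s` be a transcendence basis of the coordinates of `V'`, and for the other
coordinates `b` let `f_b = ∑ τ_l` be an equation between `x_b` and the coordinates in `s` with the minimal
number `M_b` of terms `τ_l`. For every `b` let `λ_b` be a new variable, a mask. The sums
`P_l = λ_b + τ_0 + ⋯ + τ_(l-1)` (and, for `m > 2`, constant dummy terms whose sum is zero) are different
linear functions of `λ_b` because no proper partial sum of an equation with the minimal number of terms is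
zero on `V'`; so they are multiplicatively independent modulo the functions on `V'`. The quotients
`P_l / P_(l+1)` and `τ_l / P_(l+1)` are the coordinates of points of `H`, as are `λ_b` and a similar chain
of length one for each coordinate of `V'`. In this way the product of `V'^k` and the space of the masks is
mapped to `H^K`, `K = k N + j`, such that there are no accidental coincidences: on the image `U` the number
of multiplicatively independent nonconstant functions is exactly `K + dim U`. By the principal ideal theorem
it follows that no irreducible subset of `H^K` whose closure contains `U` is atypical (`upper`). But the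
points of excess `k` of `V'^k` together with roots of unity as values of the masks give points of `H^K`
which are dense in `U` and which satisfy at least `(m - 1) K + k - O(1)` relations; for small `ε` and large
`k` this contradicts (4).
-/

set_option autoImplicit false

open Pool.Agent.T6.H15.ZP Pool.Agent.T6.H15.HY

namespace Pool.Agent.Results.MP_b7926e_nt.PowersOfOneHyperplane

theorem result (m : ℕ) (hm : 2 ≤ m) (a : Fin m → ℂ) (ha : ∀ i, a i ≠ 0) : List.TFAE [
    ∀ n, Zilber n,
    ∀ K : ℕ, FinMax (hyper a (Fin K)),
    ∀ N : ℕ, ∃ K, N ≤ K ∧ FinMax (hyper a (Fin K)),
    ∀ ε : ℝ, 0 < ε → ∀ N : ℕ, ∃ K, N ≤ K ∧ PtCov a (Fin K) ((m - 1 + ε) * K)] :=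
  main' hm ha

end Pool.Agent.Results.MP_b7926e_nt.PowersOfOneHyperplane
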