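import Pool.Agent.T6.H15.LN.Final

/-!
# Zilber's conjecture and the powers of one line in `(ℂ^×)^m`, `m ≥ 3`

`Zilber n` is Zilber's conjecture for the irreducible closed subvarieties of `(ℂ^×)^n`; the assertion
`∀ n, Zilber n` is literally the frozen statement `S18257` (`Pool/Agent/T6/H15/ZP/Check.lean`).

Let `m ≥ 3` and let `L = {(a_1 x + b_1, …, a_m x + b_m)}` be a line in `(ℂ^×)^m` in general position: no
coordinate `a_i x + b_i` is constant and no two of them are proportional. `lines a b (Fin K)` is the
`K`-th power of `L`, a subvariety of dimension `K` of `(ℂ^×)^(K m)`. `FinMax V` means: `V` has only
finitely many maximal atypical subvarieties.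

**Theorem.** The following assertions are equivalent.

(1) Zilber's conjecture for all subvarieties of `(ℂ^×)^n`, for all `n`.

(2) For all `K` the variety `L^K` has only finitely many maximal atypical subvarieties.

(3) For infinitely many `K` the variety `L^K` has only finitely many maximal atypical subvarieties.

(4) For every `ε > 0` there are infinitely many `K` such that the points of `L^K` which satisfy at least
`(1 + ε) K` independent multiplicative relations up to roots of unity are contained in finitely many
atypical subvarieties of `L^K` (`PtFin`).

So the conjecture for subvarieties of arbitrary codimension and dimension is equivalent to the conjecture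
for varieties `L^K` whose dimension is an arbitrarily small part `1 / m` of the dimension of the torus. A
point of `L^K` is a `K`-tuple of complex numbers `x`; the relations are relations between the values of
the `m` linear functions `a_i x + b_i` at the `K` numbers, and `K` such relations are expected.

For `m = 2` the line is a hyperplane, and the theorem is a case of the hand-in `PowersOfOneHyperplane`. For
`m ≥ 3` the assertions (2)-(4) on the line are not formally related to those on hyperplanes: a family of
atypical subvarieties of `L^K` may use all relations between the `m K` functions, of which the `m - 2`
functions which are not needed for additions give new ones.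

The proof of (4) ⇒ (1). If the conjecture is false there is a subvariety `{g} × V'` of
`(ℂ^×)^e × (ℂ^×)^h` whose atypical points are dense, where `g` has no relations and no character is
constant on `V'`. Let `s` be a transcendence basis of the coordinates of `V'`, and for the other
coordinates `x_b` let `∑ τ_l = 0` be an equation between `x_b` and the coordinates in `s` with the minimal
number of terms. Then a linear combination `∑ β_l τ_l` vanishes on `V'` only if all `β_l` are equal, and
there are at least three terms. Let `μ_b` be a new variable and `P_l = μ_b + τ_0 + ⋯ + τ_(l-1)`. The point of
`L` where two of the linear functions have the quotient `P_l / P_(l+1)` has the coordinates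
`(P_l + γ_i τ_l) / τ_l` up to constants, with `m` different numbers `γ_i`. So `V'^k` with the masks `μ_b` is
mapped to `L^K`, `K = k N + j`, and the functions `P_l + γ_i τ_l` of `μ_b` are pairwise different after a
scaling of the equation; therefore they are multiplicatively independent modulo the functions on `V'^k`. By
the principal ideal theorem it follows that no irreducible subset of `L^K` whose closure contains the image
`U` is atypical (`upper`). But the points of excess `k` of `V'^k` together with roots of unity as values of
the masks give points of `L^K` which are dense in `U` and which satisfy at least `K + k - O(1)` relations;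
for small `ε` and large `k` this contradicts (4).
-/

set_option autoImplicit false

open Pool.Agent.T6.H15.ZP Pool.Agent.T6.H15.HY Pool.Agent.T6.H15.LN

namespace Pool.Agent.Results.MP_b7926e_nt.PowersOfOneLine

theorem result (m : ℕ) (hm : 3 ≤ m) (a b : Fin m → ℂ) (ha : ∀ i, a i ≠ 0)
    (hab : ∀ i j, i ≠ j → a i * b j ≠ a j * b i) : List.TFAE [
    ∀ n, Zilber n,
    ∀ K : ℕ, FinMax (lines a b (Fin K)),
    ∀ N : ℕ, ∃ K, N ≤ K ∧ FinMax (lines a b (Fin K)),
    ∀ ε : ℝ, 0 < ε → ∀ N : ℕ, ∃ K, N ≤ K ∧ PtFin (lines a b (Fin K)) ((1 + ε) * K)] :=
  main' (by omega) ha hab

end Pool.Agent.Results.MP_b7926e_nt.PowersOfOneLine
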