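import Pool.Agent.T6.H15.ZP.Points
import Pool.Agent.T6.H15.ZP.Check

/-!
# Zilber's conjecture and points with many multiplicative relations

`Zilber n` is Zilber's conjecture for the irreducible closed subvarieties of `(ℂ^×)^n`; the assertion
`∀ n, Zilber n` is literally the frozen statement `S18257` (`Pool/Agent/T6/H15/ZP/Check.lean`).

`PointsNotDense n t` is the following assertion: if an irreducible closed subvariety `V` of `(ℂ^×)^n` is
not contained in a proper special subvariety, then the points of `V` which satisfy at least
`dim V + t` independent multiplicative relations up to roots of unity are not Zariski dense in `V`. Since
`n` minus the number of independent relations of `x` is the rank of the group generated by the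
coordinates of `x`, these are the points for which this rank is at most `codim V - t`. Zilber's
conjecture implies `PointsNotDense n 1`.

**Theorem.** Let `ε ≥ 0`. If `PointsNotDense N ⌈ε N⌉` is true for infinitely many `N`, then Zilber's
conjecture is true for all subvarieties of `(ℂ^×)^n` with `ε n < 1`. Zilber's conjecture is true for
all `n` if and only if for every `ε > 0` there are infinitely many `N` such that `PointsNotDense N ⌈ε N⌉`
is true.

So it is enough to consider the points `x` of the subvarieties `V` of tori of large dimension `N` for
which the rank of the group generated by the coordinates of `x` is less than `codim V` by a positive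
proportion of `N`.

For the proof let `V` be a subvariety whose atypical subvarieties are dense (a component of the closure
of the union of the atypical subvarieties of a counterexample of least dimension is such a `V`, or a
counterexample to a lower dimensional case). The torus is `(ℂ^×)^e × (ℂ^×)^h`, where the characters
which are constant on `V` are those of the first factor, and `V = {g} × V'`. The products
`{g} × X_1 × ⋯ × X_k` are contained in `{g} × V'^k`, and their excess is at least `k`, since the
relations between the coordinates of `g` and of different factors are independent. Finally, there is a
dense set of points with torsion coordinates in a transcendence basis on each such product.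
-/

set_option autoImplicit false

open Pool.Agent.T6.H15.ZP

namespace Pool.Agent.Results.MP_b7926e_nt.StronglyAtypicalPoints

theorem result :
    (∀ ε : ℝ, 0 ≤ ε → (∀ m : ℕ, ∃ N, m ≤ N ∧ PointsNotDense N ⌈ε * N⌉₊) →
      ∀ n : ℕ, ε * n < 1 → Zilber n) ∧
    ((∀ n, Zilber n) ↔ ∀ ε : ℝ, 0 < ε → ∀ m : ℕ, ∃ N, m ≤ N ∧ PointsNotDense N ⌈ε * N⌉₊) :=
  main

end Pool.Agent.Results.MP_b7926e_nt.StronglyAtypicalPoints
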